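import Pool.Agent.Y665.SELB.Core

/-!
# The second isogeny Selmer set for many split primes
-/

set_option autoImplicit false

namespace Pool.Agent.Y665.SELB

open Finset
open Pool.Agent.Y700 (PC Rt)
open Pool.Agent.Z700
open Pool.Agent.Y814.BSD14 Pool.Agent.Y809.BSD14

theorem sq7a : IsSquare ((1 : ℕ) : ZMod 7) ∧ IsSquare ((2 : ℕ) : ZMod 7) ∧
    IsSquare ((4 : ℕ) : ZMod 7) := ⟨⟨1, by decide⟩, ⟨3, by decide⟩, ⟨2, by decide⟩⟩

theorem sq_seven {p : ℕ} (hp : p.Prime) (p8 : p % 8 = 1)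
    (p7 : p % 7 = 1 ∨ p % 7 = 2 ∨ p % 7 = 4) : IsSquare ((7 : ℕ) : ZMod p) := by
  have : Fact p.Prime := ⟨hp⟩
  have : Fact (Nat.Prime 7) := ⟨by norm_num⟩
  rw [ZMod.exists_sq_eq_prime_iff_of_mod_four_eq_one (p := p) (q := 7) (by omega) (by norm_num)]
  have h : (p : ZMod 7) = ((p % 7 : ℕ) : ZMod 7) := by rw [ZMod.natCast_mod]
  rw [h]
  rcases p7 with h | h | h <;> rw [h]
  · exact sq7a.1
  · exact sq7a.2.1
  · exact sq7a.2.2

/-- the condition at a prime dividing `z` -/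
theorem key_b {p q : ℕ} (hp : p.Prime) (hq0 : (q : ZMod p) ≠ 0) (p8 : p % 8 = 1) (p7 : p ≠ 7)
    (hsev : IsSquare (-7 : ZMod p)) {z z' : ℤ} (hz : Squarefree z) (hz' : z = p * z')
    (h : ∀ (l : ℕ) [Fact l.Prime], PC (-26 * (p * (q * (1 : ℕ)))) (-343 * (p * (q * (1 : ℕ))) ^ 2) l z) :
    IsSquare ((z' : ZMod p) * (q : ZMod p)) ↔ ¬ Rt p 1 := by
  have : Fact p.Prime := ⟨hp⟩
  have hpP : Prime (p : ℤ) := Nat.prime_iff_prime_int.1 hp
  have hq1 : ¬ (p : ℤ) ∣ (q * (1 : ℕ) : ℤ) := by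
    intro h0
    apply hq0
    have h1 := (ZMod.intCast_zmod_eq_zero_iff_dvd _ p).2 h0
    simpa using h1
  constructor
  · intro hs
    exact nRt2 hp hq0 hq1 p8 p7 hsev hz hz' h hs
  · intro hR
    have hB : ¬ (p : ℤ) ∣ -343 * (q * (1 : ℕ) : ℤ) ^ 2 := by
      intro h0
      rcases hpP.dvd_or_dvd h0 with h0 | h0
      · exact dvd_343 hp p7 h0
      · exact hq1 (hpP.dvd_of_dvd_pow h0)
    have h1 := h p
    rw [show (-26 : ℤ) * (p * (q * (1 : ℕ))) = p * (-26 * (q * (1 : ℕ))) by ring,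
      show (-343 : ℤ) * (p * (q * (1 : ℕ))) ^ 2 = (p : ℤ) ^ 2 * (-343 * (q * (1 : ℕ)) ^ 2) by
        ring] at h1
    obtain ⟨r0, hr0', hr00, hr2⟩ := root_of_PC hz ⟨z', hz'⟩ hB h1
    obtain ⟨t0, ht0'⟩ := hr2 z' hz'
    -- a square root of the first polynomial
    unfold Rt at hR
    push Not at hR
    obtain ⟨al, hal, hsq⟩ := hR
    obtain ⟨r, hrd⟩ : ∃ r : ZMod p, r = r0 / q := ⟨_, rfl⟩
    have hr : r ^ 2 - 26 * r - 343 = 0 := by
      rw [hrd]
      push_cast at hr0'
      field_simp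
      linear_combination hr0'
    have p2 : p ≠ 2 := by rintro rfl; omega
    have n2 : (2 : ZMod p) ≠ 0 := by exact_mod_cast cast_ne hp Nat.prime_two p2
    obtain ⟨s2, hs2⟩ : IsSquare (2 : ZMod p) := by
      rw [ZMod.exists_sq_eq_two_iff p2]
      exact Or.inl p8
    obtain ⟨i, hi⟩ : IsSquare (-1 : ZMod p) := by
      rw [ZMod.exists_sq_eq_neg_one_iff]
      omega
    obtain ⟨b, hb⟩ := hsq
    have hal' : al ^ 2 + 13 * al + 128 = 0 := by
      push_cast at hal
      linear_combination hal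
    have hal0 : al ≠ 0 := by
      intro h0
      rw [h0] at hal'
      have h128 : (2 : ZMod p) ^ 7 = 0 := by linear_combination hal'
      exact n2 (pow_eq_zero_iff (by norm_num) |>.1 h128)
    have hb0 : b ≠ 0 := by
      rintro rfl
      apply hal0
      rw [hb]; ring
    obtain ⟨s, hsdef⟩ : ∃ s : ZMod p, s = 8 * s2 := ⟨_, rfl⟩
    have hs : s ^ 2 = 128 := by
      rw [hsdef]; linear_combination -64 * hs2
    have hrr : (r - 13 - 2 * s) * (r - 13 + 2 * s) = 0 := by
      linear_combination hr - 4 * hs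
    have hrs : ∃ w : ZMod p, w ≠ 0 ∧ r = w * w := by
      have hr0 : r ≠ 0 := by
        rw [hrd]
        exact div_ne_zero hr00 hq0
      have : ∃ w : ZMod p, r = w * w := by
        rcases mul_eq_zero.1 hrr with h6 | h6
        · refine ⟨i * (al - s) / b, ?_⟩
          field_simp
          linear_combination al * h6 + hal' + hs + (al - s) ^ 2 * hi - r * hb
        · refine ⟨i * (al + s) / b, ?_⟩
          field_simp
          linear_combination al * h6 + hal' + hs + (al + s) ^ 2 * hi - r * hb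
      obtain ⟨w, hw⟩ := this
      refine ⟨w, ?_, hw⟩
      rintro rfl
      apply hr0
      rw [hw]; ring
    obtain ⟨w, hw0, hw⟩ := hrs
    -- `r0 = q w ^ 2`
    have hr0q : r0 = q * (w * w) := by
      rw [← hw, hrd]
      field_simp
    refine ⟨t0 / w, ?_⟩
    rw [hr0q] at ht0'
    field_simp
    linear_combination ht0'

theorem t_SELB : S_SELB := by
  intro P hP z hz h0
  obtain ⟨hne, hPP, hodd⟩ := hP
  have h : ∀ (l : ℕ) [Fact l.Prime], PC (-26 * (pr P : ℤ)) (-343 * (pr P : ℤ) ^ 2) l z := by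
    intro l _
    have := h0 l
    rwa [show (-2 : ℤ) * (13 * (pr P : ℤ)) = -26 * (pr P : ℤ) by ring,
      show ((13 : ℤ) * (pr P : ℤ)) ^ 2 - 4 * (128 * (pr P : ℤ) ^ 2) =
        -343 * (pr P : ℤ) ^ 2 by ring] at this
  have p7 : ∀ p ∈ P, p ≠ 7 := by
    rintro p hp rfl
    have := (hPP 7 hp).2.2
    omega
  have s7 : ∀ p ∈ P, IsSquare ((7 : ℕ) : ZMod p) := fun p hp =>
    sq_seven (hPP p hp).1 (hPP p hp).2.1 (hPP p hp).2.2
  have sm7 : ∀ p ∈ P, IsSquare (-7 : ZMod p) := by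
    intro p hp
    have : Fact p.Prime := ⟨(hPP p hp).1⟩
    obtain ⟨i, hi⟩ : IsSquare (-1 : ZMod p) := by
      rw [ZMod.exists_sq_eq_neg_one_iff]
      have := (hPP p hp).2.1
      omega
    obtain ⟨s, hs⟩ := s7 p hp
    refine ⟨i * s, ?_⟩
    push_cast at hs
    linear_combination (7 : ZMod p) * hi + i ^ 2 * hs
  have h12 : z.natAbs = 1 ∨ z.natAbs = 7 := by
    refine sel_core (c1 := -26) (c2 := -343) (fun p hp => ⟨(hPP p hp).1, (hPP p hp).2.1⟩) hodd
      (fun q hq n7 => dvd_343 hq n7) p7 ?_ s7 hz h ?_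
    · intro p hp
      obtain ⟨s, hs⟩ := sm7 p hp
      refine ⟨7 * s, ?_⟩
      push_cast
      linear_combination 49 * hs
    · intro p hp z' hz'
      have hp1 := (hPP p hp).1
      have : Fact p.Prime := ⟨hp1⟩
      have hq0 : ((∏ q ∈ P.erase p, q : ℕ) : ZMod p) ≠ 0 := by
        push_cast
        rw [Finset.prod_ne_zero_iff]
        intro q hq
        exact cast_ne hp1 (hPP q (Finset.mem_of_mem_erase hq)).1
          (fun h0 => (Finset.ne_of_mem_erase hq) h0.symm)
      have hpk : (pr P : ℤ) = p * (((∏ q ∈ P.erase p, q : ℕ) : ℤ) * (1 : ℕ)) := by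
        unfold pr
        rw [← Finset.mul_prod_erase P (fun r : ℕ => r) hp]
        push_cast
        ring
      have h1 : ∀ (l : ℕ) [Fact l.Prime],
          PC (-26 * (p * (((∏ q ∈ P.erase p, q : ℕ) : ℤ) * (1 : ℕ))))
            (-343 * (p * (((∏ q ∈ P.erase p, q : ℕ) : ℤ) * (1 : ℕ))) ^ 2) l z := by
        intro l _
        have := h l
        rwa [hpk] at this
      have h2 := key_b hp1 hq0 (hPP p hp).2.1 (p7 p hp) (sm7 p hp) hz hz' h1
      push_cast at h2
      exact h2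
  have hM : (pr P : ℤ) % 4 = 1 := by
    have h1 : ∀ K : Finset ℕ, K ⊆ P → (∏ q ∈ K, q) % 4 = 1 := by
      intro K
      induction K using Finset.induction_on with
      | empty => intro _; rfl
      | insert q K hq ih =>
        intro hK
        rw [Finset.prod_insert hq, Nat.mul_mod, ih (fun r hr => hK (Finset.mem_insert_of_mem hr))]
        have := (hPP q (hK (Finset.mem_insert_self q K))).2.1
        have h3 : q % 4 = 1 := by omega
        rw [h3]
    have h2 := h1 P (Finset.Subset.refl _)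
    unfold pr
    exact_mod_cast h2
  have e1 : z ≠ -1 := by
    rintro rfl
    exact not_neg_one hM (h 2)
  have e2 : z ≠ 7 := by
    rintro rfl
    exact not_seven hM (h 2)
  omega

end Pool.Agent.Y665.SELB
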