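import Pool.Agent.Y809.BSD14.Selb
import Pool.Agent.Z700.Defs2

/-!
# Isogeny Selmer sets for many split primes: the common core
-/

set_option autoImplicit false

namespace Pool.Agent.Y665.SELB

open Finset
open Pool.Agent.Y700 (PC Rt)
open Pool.Agent.Z700
open Pool.Agent.Y814.BSD14 Pool.Agent.Y809.BSD14

/-! ### Linear algebra modulo two -/

/-- a matrix with odd determinant has no kernel modulo two -/
theorem empty_of_odd (l : ℕ → ℕ → ℤ) (x : ℕ → ℤ) (P J : Finset ℕ) (hJ : J ⊆ P)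
    (hodd : Odd (Yd l x P)) (h1 : ∀ p ∈ P \ J, Even (∑ q ∈ J, l p q))
    (h2 : ∀ p ∈ J, Even ((∑ q ∈ P \ J, l p q) + x p)) : J = ∅ := by
  classical
  by_contra hne
  obtain ⟨p0, hp0⟩ := Finset.nonempty_iff_ne_empty.2 hne
  set A : Matrix P P ℤ :=
    Matrix.of fun i j : P => if i = j then (∑ k ∈ P.erase i.1, l i k) + x i else -l i j with hA
  set B : Matrix P P (ZMod 2) := A.map (Int.castRingHom (ZMod 2)) with hB
  have hdet : B.det = 0 := by
    rw [← Matrix.exists_mulVec_eq_zero_iff]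
    refine ⟨fun i : P => if i.1 ∈ J then 1 else 0, ?_, ?_⟩
    · intro h0
      have := congrFun h0 ⟨p0, hJ hp0⟩
      simp [hp0] at this
    · funext i
      have e0 : (B.mulVec fun i : P => if i.1 ∈ J then (1 : ZMod 2) else 0) i =
          ∑ j : P, B i j * (if j.1 ∈ J then 1 else 0) := rfl
      rw [e0]
      have e1 : ∀ j : P, B i j = (if i = j then (((∑ k ∈ P.erase i.1, l i k) + x i : ℤ) : ZMod 2)
          else ((-l i j : ℤ) : ZMod 2)) := by
        intro j
        rw [hB, hA]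
        simp only [Matrix.map_apply, Matrix.of_apply]
        split_ifs <;> rfl
      by_cases hi : i.1 ∈ J
      · -- `i ∈ J`
        have h3 := h2 i.1 hi
        have e2 : ∑ j : P, B i j * (if j.1 ∈ J then 1 else 0) =
            (((∑ k ∈ P.erase i.1, l i k) + x i : ℤ) : ZMod 2) +
              ∑ k ∈ J.erase i.1, ((-l i k : ℤ) : ZMod 2) := by
          rw [← Finset.add_sum_erase _ _ (Finset.mem_univ i)]
          congr 1
          · rw [e1, if_pos rfl, if_pos hi, mul_one]
          · have e3 : ∀ j ∈ (Finset.univ.erase i : Finset P),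
                B i j * (if j.1 ∈ J then 1 else 0) =
                  (fun k : ℕ => if k ∈ J.erase i.1 then ((-l i k : ℤ) : ZMod 2) else 0) j.1 := by
              intro j hj
              have hj1 : j ≠ i := (Finset.mem_erase.1 hj).1
              have hj2 : j.1 ≠ i.1 := fun h => hj1 (Subtype.ext h)
              rw [e1, if_neg (Ne.symm hj1)]
              by_cases hjJ : j.1 ∈ J
              · simp [hjJ, hj2]
              · simp [hjJ]
            rw [Finset.sum_congr rfl e3]
            have e4 : ∑ j ∈ (Finset.univ.erase i : Finset P),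
                (fun k : ℕ => if k ∈ J.erase i.1 then ((-l i k : ℤ) : ZMod 2) else 0) j.1 =
                ∑ j : P, (fun k : ℕ => if k ∈ J.erase i.1 then ((-l i k : ℤ) : ZMod 2) else 0) j.1 := by
              rw [← Finset.add_sum_erase _ _ (Finset.mem_univ i)]
              simp
            rw [e4]
            have e5 := Finset.sum_coe_sort P
              (fun k : ℕ => if k ∈ J.erase i.1 then ((-l i k : ℤ) : ZMod 2) else 0)
            rw [e5, ← Finset.sum_filter]
            apply Finset.sum_congr _ fun _ _ => rfl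
            ext k
            simp only [Finset.mem_filter, Finset.mem_erase]
            constructor
            · rintro ⟨-, h⟩; exact h
            · intro h; exact ⟨hJ h.2, h⟩
        rw [e2]
        have e6 : (∑ k ∈ P.erase i.1, l i k) = (∑ k ∈ P \ J, l i k) + ∑ k ∈ J.erase i.1, l i k := by
          rw [← Finset.sum_union]
          · congr 1
            ext k
            simp only [Finset.mem_erase, Finset.mem_union, Finset.mem_sdiff]
            constructor
            · rintro ⟨h, h'⟩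
              by_cases hk : k ∈ J
              · exact Or.inr ⟨h, hk⟩
              · exact Or.inl ⟨h', hk⟩
            · rintro (⟨h, h'⟩ | ⟨h, h'⟩)
              · exact ⟨fun h0 => h' (h0 ▸ hi), h⟩
              · exact ⟨h, hJ h'⟩
          · rw [Finset.disjoint_left]
            intro k hk hk'
            exact (Finset.mem_sdiff.1 hk).2 (Finset.mem_of_mem_erase hk')
        rw [e6]
        obtain ⟨t, ht⟩ := h3
        have e7 : ((((∑ k ∈ P \ J, l i k) + ∑ k ∈ J.erase i.1, l i k) + x i : ℤ) : ZMod 2) +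
            ∑ k ∈ J.erase i.1, ((-l i k : ℤ) : ZMod 2) =
            (((∑ k ∈ P \ J, l i k) + x i : ℤ) : ZMod 2) := by
          push_cast
          rw [Finset.sum_neg_distrib]
          ring
        rw [e7, ht]
        push_cast
        have h22 : (2 : ZMod 2) = 0 := by decide
        show (t : ZMod 2) + t = 0
        linear_combination (t : ZMod 2) * h22
      · -- `i ∉ J`
        have h3 := h1 i.1 (Finset.mem_sdiff.2 ⟨i.2, hi⟩)
        have e2 : ∑ j : P, B i j * (if j.1 ∈ J then 1 else 0) =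
            ∑ k ∈ J, ((-l i k : ℤ) : ZMod 2) := by
          have e3 : ∀ j ∈ (Finset.univ : Finset P), B i j * (if j.1 ∈ J then 1 else 0) =
              (fun k : ℕ => if k ∈ J then ((-l i k : ℤ) : ZMod 2) else 0) j.1 := by
            intro j _
            by_cases hjJ : j.1 ∈ J
            · have hj1 : ¬ i = j := fun h => hi (h ▸ hjJ)
              rw [e1, if_neg hj1]
              simp [hjJ]
            · simp [hjJ]
          rw [Finset.sum_congr rfl e3]
          have e5 := Finset.sum_coe_sort P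
            (fun k : ℕ => if k ∈ J then ((-l i k : ℤ) : ZMod 2) else 0)
          rw [e5, ← Finset.sum_filter]
          apply Finset.sum_congr _ fun _ _ => rfl
          ext k
          simp only [Finset.mem_filter]
          exact ⟨fun h => h.2, fun h => ⟨hJ h, h⟩⟩
        rw [e2]
        obtain ⟨t, ht⟩ := h3
        have e7 : ∑ k ∈ J, ((-l i k : ℤ) : ZMod 2) = ((-(∑ k ∈ J, l i k) : ℤ) : ZMod 2) := by
          push_cast
          rw [Finset.sum_neg_distrib]
        rw [e7, ht]
        push_cast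
        have h22 : (2 : ZMod 2) = 0 := by decide
        show -((t : ZMod 2) + t) = 0
        linear_combination -(t : ZMod 2) * h22
  have h4 : B.det = ((Yd l x P : ℤ) : ZMod 2) := by
    rw [hB, ← RingHom.mapMatrix_apply, ← RingHom.map_det]
    rfl
  rw [hdet] at h4
  have h5 : (2 : ℤ) ∣ Yd l x P := by
    have := (ZMod.intCast_zmod_eq_zero_iff_dvd (Yd l x P) 2).1 h4.symm
    exact_mod_cast this
  exact (Int.not_even_iff_odd.2 hodd) (even_iff_two_dvd.2 h5)

/-! ### Symbols -/

theorem lres_cases {p q : ℕ} (hp : p.Prime) (hq : q.Prime) (p8 : p % 8 = 1) (hpq : p ≠ q)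
    (q2 : q % 8 = 1) :
    (lres p q = 1 ∧ jacobiSym q p = -1) ∨ (lres p q = 0 ∧ jacobiSym q p = 1) := by
  have h1 : jacobiSym p q = jacobiSym q p :=
    jacobiSym.quadratic_reciprocity_one_mod_four (by omega) (Nat.odd_iff.2 (by omega))
  have h2 : jacobiSym q p = 1 ∨ jacobiSym q p = -1 := by
    apply jacobiSym.eq_one_or_neg_one
    rw [Int.gcd_natCast_natCast]
    exact (Nat.coprime_primes hq hp).2 hpq.symm
  unfold lres
  rw [h1]
  rcases h2 with h2 | h2
  · right
    rw [h2]
    norm_num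
  · left
    rw [h2]
    norm_num

theorem jac_prod {p : ℕ} (hp : p.Prime) (p8 : p % 8 = 1) (K : Finset ℕ)
    (hK : ∀ q ∈ K, q.Prime ∧ q % 8 = 1 ∧ q ≠ p) :
    jacobiSym (∏ q ∈ K, (q : ℤ)) p = if Even (∑ q ∈ K, lres p q) then 1 else -1 := by
  classical
  induction K using Finset.induction_on with
  | empty => simp [jacobiSym.one_left]
  | insert q K hq ih =>
    rw [Finset.prod_insert hq, Finset.sum_insert hq, jacobiSym.mul_left,
      ih (fun r hr => hK r (Finset.mem_insert_of_mem hr))]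
    obtain ⟨h1, h2, h3⟩ := hK q (Finset.mem_insert_self q K)
    rcases lres_cases hp h1 p8 h3.symm h2 with ⟨e1, e2⟩ | ⟨e1, e2⟩
    · rw [e1, e2]
      by_cases h : Even (∑ q ∈ K, lres p q)
      · rw [if_pos h, if_neg (by rw [Int.even_add]; simp [h])]
        norm_num
      · rw [if_neg h, if_pos (by rw [Int.even_add]; simp [h])]
        norm_num
    · rw [e1, e2, zero_add, one_mul]

theorem sq_prod_iff {p : ℕ} (hp : p.Prime) (p8 : p % 8 = 1) (K : Finset ℕ)
    (hK : ∀ q ∈ K, q.Prime ∧ q % 8 = 1 ∧ q ≠ p) :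
    IsSquare (∏ q ∈ K, (q : ZMod p)) ↔ Even (∑ q ∈ K, lres p q) := by
  have : Fact p.Prime := ⟨hp⟩
  have hne : ((∏ q ∈ K, (q : ℤ) : ℤ) : ZMod p) ≠ 0 := by
    push_cast
    rw [Finset.prod_ne_zero_iff]
    intro q hq
    exact cast_ne hp (hK q hq).1 (hK q hq).2.2.symm
  have h1 := jac_prod hp p8 K hK
  rw [← jacobiSym.legendreSym.to_jacobiSym] at h1
  have h2 := legendreSym.eq_one_iff p hne
  push_cast at h2
  rw [← h2, h1]
  by_cases h : Even (∑ q ∈ K, lres p q)
  · simp [h]
  · simp [h]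

theorem sq_mul_iff {F : Type} [Field F] {a b c : F} (ha : IsSquare a) (ha0 : a ≠ 0) (hb : b ≠ 0) :
    IsSquare (a * b ^ 2 * c) ↔ IsSquare c := by
  obtain ⟨s, rfl⟩ := ha
  have hs : s ≠ 0 := left_ne_zero_of_mul ha0
  constructor
  · rintro ⟨t, ht⟩
    refine ⟨t / (s * b), ?_⟩
    field_simp
    linear_combination ht
  · rintro ⟨t, rfl⟩
    exact ⟨s * b * t, by ring⟩

/-! ### The core -/

theorem sel_core {P : Finset ℕ} (hP : ∀ p ∈ P, p.Prime ∧ p % 8 = 1) (hodd : Odd (Yd lres xrt P))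
    {c1 c2 : ℤ} {q0 : ℕ} (hc2 : ∀ q : ℕ, q.Prime → q ≠ q0 → ¬ (q : ℤ) ∣ c2)
    (hq0 : ∀ p ∈ P, p ≠ q0) (hs2 : ∀ p ∈ P, IsSquare (c2 : ZMod p))
    (hsq : ∀ p ∈ P, IsSquare (q0 : ZMod p)) {z : ℤ} (hz : Squarefree z)
    (h : ∀ (l : ℕ) [Fact l.Prime], PC (c1 * (pr P : ℤ)) (c2 * (pr P : ℤ) ^ 2) l z)
    (key : ∀ p ∈ P, ∀ z' : ℤ, z = p * z' →
      (IsSquare ((z' : ZMod p) * ∏ q ∈ P.erase p, (q : ZMod p)) ↔ ¬ Rt p 1)) :
    z.natAbs = 1 ∨ z.natAbs = q0 := by
  classical
  -- the primes dividing `z`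
  have hpr : ∀ q : ℕ, q.Prime → (q : ℤ) ∣ z → q = q0 ∨ q ∈ P := by
    intro q hq hqz
    by_contra hcon
    push Not at hcon
    have : Fact q.Prime := ⟨hq⟩
    have hqP : Prime (q : ℤ) := Nat.prime_iff_prime_int.1 hq
    refine not_dvd_of_PC hz ?_ (h q) hqz
    intro h0
    rcases hqP.dvd_or_dvd h0 with h0 | h0
    · exact hc2 q hq hcon.1 h0
    · have h1 : q ∣ pr P := by exact_mod_cast hqP.dvd_of_dvd_pow h0
      obtain ⟨p, hp, hqp⟩ := (Nat.Prime.prime hq).exists_mem_finset_dvd h1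
      have h2 := (Nat.prime_dvd_prime_iff_eq hq (hP p hp).1).1 hqp
      exact hcon.2 (h2 ▸ hp)
  obtain ⟨J, hJd⟩ : ∃ J : Finset ℕ, J = P.filter (fun p : ℕ => (p : ℤ) ∣ z) := ⟨_, rfl⟩
  have hJP : J ⊆ P := by rw [hJd]; exact Finset.filter_subset _ _
  have hJm : ∀ p, p ∈ J ↔ p ∈ P ∧ (p : ℤ) ∣ z := by
    intro p
    rw [hJd, Finset.mem_filter]
  obtain ⟨u, hu⟩ : ((∏ q ∈ J, (q : ℤ))) ∣ z := by
    have h1 : (∏ q ∈ J, q) ∣ z.natAbs := by
      refine Finset.prod_primes_dvd _ (fun p hp => (hP p (hJP hp)).1.prime) ?_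
      intro p hp
      exact Int.natCast_dvd.1 ((hJm p).1 hp).2
    have h2 := Int.natCast_dvd.2 h1
    rw [Nat.cast_prod] at h2
    exact h2
  have huq : ∀ q : ℕ, q.Prime → (q : ℤ) ∣ u → q = q0 := by
    intro q hq hqu
    have hqz : (q : ℤ) ∣ z := by rw [hu]; exact hqu.mul_left _
    rcases hpr q hq hqz with h1 | h1
    · exact h1
    · exfalso
      have h2 : q ∈ J := (hJm q).2 ⟨h1, hqz⟩
      have h3 : z = q * ((∏ r ∈ J.erase q, (r : ℤ)) * u) := by
        rw [hu, ← Finset.mul_prod_erase J (fun r : ℕ => (r : ℤ)) h2]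
        ring
      exact not_dvd_of_sqf hq hz h3 (hqu.mul_left _)
  have hun : u.natAbs = 1 ∨ u.natAbs = q0 := unit_part hz (Dvd.intro_left _ hu.symm) huq
  have husq : ∀ p ∈ P, IsSquare (u : ZMod p) := fun p hp =>
    unit_sq (hP p hp).1 (hP p hp).2 (hsq p hp) u hun
  have hu0 : ∀ p ∈ P, (u : ZMod p) ≠ 0 := by
    intro p hp h0
    have h1 := (ZMod.intCast_zmod_eq_zero_iff_dvd u p).1 h0
    exact hq0 p hp (huq p (hP p hp).1 h1)
  have hprod0 : ∀ p ∈ P, ∀ K : Finset ℕ, K ⊆ P → p ∉ K → (∏ q ∈ K, (q : ZMod p)) ≠ 0 := by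
    intro p hp K hK hpK
    have : Fact p.Prime := ⟨(hP p hp).1⟩
    rw [Finset.prod_ne_zero_iff]
    intro q hq
    exact cast_ne (hP p hp).1 (hP q (hK hq)).1 (fun h0 => hpK (h0 ▸ hq))
  have hpk : ∀ p ∈ P, (pr P : ℤ) = p * ∏ q ∈ P.erase p, (q : ℤ) := by
    intro p hp
    rw [Finset.mul_prod_erase P (fun r : ℕ => (r : ℤ)) hp]
    unfold pr
    push_cast
    rfl
  have hJ : J = ∅ := by
    refine empty_of_odd lres xrt P J hJP hodd ?_ ?_
    · intro p hp
      obtain ⟨hpP, hpJ⟩ := Finset.mem_sdiff.1 hp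
      have hp1 := (hP p hpP).1
      have : Fact p.Prime := ⟨hp1⟩
      have hpz : ¬ (p : ℤ) ∣ z := fun h0 => hpJ ((hJm p).2 ⟨hpP, h0⟩)
      have hM1 : ¬ (p : ℤ) ∣ ∏ q ∈ P.erase p, (q : ℤ) := by
        intro h0
        have h1 := (ZMod.intCast_zmod_eq_zero_iff_dvd _ p).2 h0
        push_cast at h1
        exact hprod0 p hpP (P.erase p) (Finset.erase_subset _ _) (Finset.notMem_erase p P) h1
      have h3 := h p
      rw [hpk p hpP] at h3
      have h4 := sq_of_PC hpz hM1 (hc2 p hp1 (hq0 p hpP)) (hs2 p hpP) h3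
      rw [← sq_prod_iff hp1 (hP p hpP).2 J
        (fun q hq => ⟨(hP q (hJP hq)).1, (hP q (hJP hq)).2, fun h0 => hpJ (h0 ▸ hq)⟩)]
      have h5 : (z : ZMod p) = (u : ZMod p) * 1 ^ 2 * ∏ q ∈ J, (q : ZMod p) := by
        rw [hu]
        push_cast
        ring
      rw [h5] at h4
      exact (sq_mul_iff (husq p hpP) (hu0 p hpP) one_ne_zero).1 h4
    · intro p hp
      have hpP := hJP hp
      have hp1 := (hP p hpP).1
      have : Fact p.Prime := ⟨hp1⟩
      have h3 : z = p * ((∏ r ∈ J.erase p, (r : ℤ)) * u) := by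
        rw [hu, ← Finset.mul_prod_erase J (fun r : ℕ => (r : ℤ)) hp]
        ring
      have h4 := key p hpP _ h3
      have h5 : ∏ q ∈ P.erase p, (q : ZMod p) =
          (∏ q ∈ J.erase p, (q : ZMod p)) * ∏ q ∈ P \ J, (q : ZMod p) := by
        rw [← Finset.prod_union]
        · congr 1
          ext k
          simp only [Finset.mem_erase, Finset.mem_union, Finset.mem_sdiff]
          constructor
          · rintro ⟨h, h'⟩
            by_cases hk : k ∈ J
            · exact Or.inl ⟨h, hk⟩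
            · exact Or.inr ⟨h', hk⟩
          · rintro (⟨h, h'⟩ | ⟨h, h'⟩)
            · exact ⟨h, hJP h'⟩
            · exact ⟨fun h0 => h' (h0 ▸ hp), h⟩
        · rw [Finset.disjoint_left]
          intro k hk hk'
          exact (Finset.mem_sdiff.1 hk').2 (Finset.mem_of_mem_erase hk)
      have h6 : (((∏ r ∈ J.erase p, (r : ℤ)) * u : ℤ) : ZMod p) * ∏ q ∈ P.erase p, (q : ZMod p) =
          (u : ZMod p) * (∏ q ∈ J.erase p, (q : ZMod p)) ^ 2 * ∏ q ∈ P \ J, (q : ZMod p) := by
        rw [h5]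
        push_cast
        ring
      rw [h6, sq_mul_iff (husq p hpP) (hu0 p hpP) (hprod0 p hpP (J.erase p)
          ((Finset.erase_subset _ _).trans hJP) (Finset.notMem_erase p J)),
        sq_prod_iff hp1 (hP p hpP).2 (P \ J)
        (fun q hq => ⟨(hP q (Finset.mem_sdiff.1 hq).1).1, (hP q (Finset.mem_sdiff.1 hq).1).2,
          fun h0 => (Finset.mem_sdiff.1 hq).2 (h0 ▸ hp)⟩)] at h4
      unfold xrt
      by_cases hR : Rt p 1
      · rw [if_pos hR]
        have h7 : ¬ Even (∑ q ∈ P \ J, lres p q) := fun h0 => h4.1 h0 hR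
        rw [Int.even_add]
        simp [h7]
      · rw [if_neg hR, add_zero]
        exact h4.2 hR
  rw [hJ] at hu
  rw [Finset.prod_empty, one_mul] at hu
  rw [hu]
  exact hun

end Pool.Agent.Y665.SELB
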