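import Pool.Agent.Y665.SELB.Core

/-!
# Isogeny Selmer sets for many split primes and inert primes: the common core
-/

set_option autoImplicit false

namespace Pool.Agent.Y665.SELC

open Finset
open Pool.Agent.Y700 (PC Rt)
open Pool.Agent.Z700
open Pool.Agent.Y814.BSD14 Pool.Agent.Y809.BSD14 Pool.Agent.Y665.SELB

/-! ### The core -/

theorem sel_core {P S : Finset ℕ} (hP : ∀ p ∈ P, p.Prime ∧ p % 8 = 1)
    (hS : ∀ q ∈ S, q.Prime ∧ q % 8 = 5) (x : ℕ → ℤ)
    (hx : ∀ p, (Rt p (pr S) → x p = 1) ∧ (¬ Rt p (pr S) → x p = 0))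
    (hodd : Odd (Yd lres x P))
    {c1 c2 : ℤ} {q0 : ℕ} (hc2 : ∀ q : ℕ, q.Prime → q ≠ q0 → ¬ (q : ℤ) ∣ c2)
    (hq0 : ∀ p ∈ P, p ≠ q0) (hs2 : ∀ p ∈ P, IsSquare (c2 : ZMod p))
    (hsq : ∀ p ∈ P, IsSquare (q0 : ZMod p))
    (hrt : ∀ q ∈ S, ∀ M r : ZMod q, M ≠ 0 → r ^ 2 + c1 * M * r + c2 * M ^ 2 ≠ 0)
    {z : ℤ} (hz : Squarefree z)
    (h : ∀ (l : ℕ) [Fact l.Prime], PC (c1 * ((pr P * pr S : ℕ) : ℤ))
      (c2 * ((pr P * pr S : ℕ) : ℤ) ^ 2) l z)
    (key : ∀ p ∈ P, ∀ z' : ℤ, z = p * z' →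
      (IsSquare ((z' : ZMod p) * ∏ q ∈ P.erase p, (q : ZMod p)) ↔ ¬ Rt p (pr S))) :
    z.natAbs = 1 ∨ z.natAbs = q0 := by
  classical
  -- the primes dividing `z`
  have hpr : ∀ q : ℕ, q.Prime → (q : ℤ) ∣ z → q = q0 ∨ q ∈ P := by
    intro q hq hqz
    by_contra hcon
    push Not at hcon
    have : Fact q.Prime := ⟨hq⟩
    have hqP : Prime (q : ℤ) := Nat.prime_iff_prime_int.1 hq
    have hqprP : ¬ q ∣ pr P := by
      intro h1
      obtain ⟨p, hp, hqp⟩ := (Nat.Prime.prime hq).exists_mem_finset_dvd h1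
      have h2 := (Nat.prime_dvd_prime_iff_eq hq (hP p hp).1).1 hqp
      exact hcon.2 (h2 ▸ hp)
    by_cases hqS : q ∈ S
    · have hSq : pr S = q * ∏ r ∈ S.erase q, r := by
        unfold pr
        rw [Finset.mul_prod_erase S (fun r : ℕ => r) hqS]
      have hqE : ¬ q ∣ ∏ r ∈ S.erase q, r := by
        intro h1
        obtain ⟨p, hp, hqp⟩ := (Nat.Prime.prime hq).exists_mem_finset_dvd h1
        have hp' := Finset.mem_erase.1 hp
        have h2 := (Nat.prime_dvd_prime_iff_eq hq (hS p hp'.2).1).1 hqp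
        exact hp'.1 h2.symm
      obtain ⟨M', hM'⟩ : ∃ M' : ℤ, M' = ((pr P * ∏ r ∈ S.erase q, r : ℕ) : ℤ) := ⟨_, rfl⟩
      have hqM : ¬ (q : ℤ) ∣ M' := by
        rw [hM']
        intro h1
        have h2 : q ∣ pr P * ∏ r ∈ S.erase q, r := by exact_mod_cast h1
        rcases hq.dvd_mul.1 h2 with h3 | h3
        · exact hqprP h3
        · exact hqE h3
      have hPS : ((pr P * pr S : ℕ) : ℤ) = q * M' := by
        rw [hM', hSq]
        push_cast
        ring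
      have hB : ¬ (q : ℤ) ∣ c2 * M' ^ 2 := by
        intro h0
        rcases hqP.dvd_or_dvd h0 with h0 | h0
        · exact hc2 q hq hcon.1 h0
        · exact hqM (hqP.dvd_of_dvd_pow h0)
      have h1 := h q
      rw [hPS, show c1 * ((q : ℤ) * M') = q * (c1 * M') by ring,
        show c2 * ((q : ℤ) * M') ^ 2 = (q : ℤ) ^ 2 * (c2 * M' ^ 2) by ring] at h1
      obtain ⟨r, hr, -, -⟩ := root_of_PC hz hqz hB h1
      have hM0 : (M' : ZMod q) ≠ 0 := by
        intro h0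
        exact hqM ((ZMod.intCast_zmod_eq_zero_iff_dvd _ _).1 h0)
      refine hrt q hqS (M' : ZMod q) r hM0 ?_
      rw [← hr]
      push_cast
      ring
    · refine not_dvd_of_PC hz ?_ (h q) hqz
      intro h0
      rcases hqP.dvd_or_dvd h0 with h0 | h0
      · exact hc2 q hq hcon.1 h0
      · have h1 : q ∣ pr P * pr S := by exact_mod_cast hqP.dvd_of_dvd_pow h0
        rcases hq.dvd_mul.1 h1 with h1 | h1
        · exact hqprP h1
        · obtain ⟨p, hp, hqp⟩ := (Nat.Prime.prime hq).exists_mem_finset_dvd h1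
          have h2 := (Nat.prime_dvd_prime_iff_eq hq (hS p hp).1).1 hqp
          exact hqS (h2 ▸ hp)
  obtain ⟨J, hJd⟩ : ∃ J : Finset ℕ, J = P.filter (fun p : ℕ => (p : ℤ) ∣ z) := ⟨_, rfl⟩
  have hJP : J ⊆ P := by rw [hJd]; exact Finset.filter_subset _ _
  have hJm : ∀ p, p ∈ J ↔ p ∈ P ∧ (p : ℤ) ∣ z := by
    intro p
    rw [hJd, Finset.mem_filter]
  obtain ⟨u, hu⟩ : ((∏ q ∈ J, (q : ℤ))) ∣ z := by
    have h1 : (∏ q ∈ J, q) ∣ z.natAbs := by
      refine Finset.prod_primes_dvd _ (fun p hp => (hP p (hJP hp)).1.prime) ?_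
      intro p hp
      exact Int.natCast_dvd.1 ((hJm p).1 hp).2
    have h2 := Int.natCast_dvd.2 h1
    rw [Nat.cast_prod] at h2
    exact h2
  have huq : ∀ q : ℕ, q.Prime → (q : ℤ) ∣ u → q = q0 := by
    intro q hq hqu
    have hqz : (q : ℤ) ∣ z := by rw [hu]; exact hqu.mul_left _
    rcases hpr q hq hqz with h1 | h1
    · exact h1
    · exfalso
      have h2 : q ∈ J := (hJm q).2 ⟨h1, hqz⟩
      have h3 : z = q * ((∏ r ∈ J.erase q, (r : ℤ)) * u) := by
        rw [hu, ← Finset.mul_prod_erase J (fun r : ℕ => (r : ℤ)) h2]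
        ring
      exact not_dvd_of_sqf hq hz h3 (hqu.mul_left _)
  have hun : u.natAbs = 1 ∨ u.natAbs = q0 := unit_part hz (Dvd.intro_left _ hu.symm) huq
  have husq : ∀ p ∈ P, IsSquare (u : ZMod p) := fun p hp =>
    unit_sq (hP p hp).1 (hP p hp).2 (hsq p hp) u hun
  have hu0 : ∀ p ∈ P, (u : ZMod p) ≠ 0 := by
    intro p hp h0
    have h1 := (ZMod.intCast_zmod_eq_zero_iff_dvd u p).1 h0
    exact hq0 p hp (huq p (hP p hp).1 h1)
  have hprod0 : ∀ p ∈ P, ∀ K : Finset ℕ, K ⊆ P → p ∉ K → (∏ q ∈ K, (q : ZMod p)) ≠ 0 := by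
    intro p hp K hK hpK
    have : Fact p.Prime := ⟨(hP p hp).1⟩
    rw [Finset.prod_ne_zero_iff]
    intro q hq
    exact cast_ne (hP p hp).1 (hP q (hK hq)).1 (fun h0 => hpK (h0 ▸ hq))
  have hpk : ∀ p ∈ P, ((pr P * pr S : ℕ) : ℤ) = p * ((∏ q ∈ P.erase p, (q : ℤ)) * (pr S : ℤ)) := by
    intro p hp
    rw [← mul_assoc, Finset.mul_prod_erase P (fun r : ℕ => (r : ℤ)) hp]
    unfold pr
    push_cast
    rfl
  have hpS : ∀ p ∈ P, (pr S : ZMod p) ≠ 0 := by
    intro p hp h0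
    have h1 := (ZMod.natCast_eq_zero_iff _ _).1 h0
    obtain ⟨q, hq, hpq⟩ := (Nat.Prime.prime (hP p hp).1).exists_mem_finset_dvd h1
    have h2 := (Nat.prime_dvd_prime_iff_eq (hP p hp).1 (hS q hq).1).1 hpq
    have h3 := (hP p hp).2
    have h4 := (hS q hq).2
    rw [h2] at h3
    omega
  have hJ : J = ∅ := by
    refine empty_of_odd lres x P J hJP hodd ?_ ?_
    · intro p hp
      obtain ⟨hpP, hpJ⟩ := Finset.mem_sdiff.1 hp
      have hp1 := (hP p hpP).1
      have : Fact p.Prime := ⟨hp1⟩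
      have hpz : ¬ (p : ℤ) ∣ z := fun h0 => hpJ ((hJm p).2 ⟨hpP, h0⟩)
      have hM1 : ¬ (p : ℤ) ∣ (∏ q ∈ P.erase p, (q : ℤ)) * (pr S : ℤ) := by
        intro h0
        have h1 := (ZMod.intCast_zmod_eq_zero_iff_dvd _ p).2 h0
        push_cast at h1
        exact mul_ne_zero (hprod0 p hpP (P.erase p) (Finset.erase_subset _ _)
          (Finset.notMem_erase p P)) (hpS p hpP) h1
      have h3 := h p
      rw [hpk p hpP] at h3
      have h4 := sq_of_PC hpz hM1 (hc2 p hp1 (hq0 p hpP)) (hs2 p hpP) h3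
      rw [← sq_prod_iff hp1 (hP p hpP).2 J
        (fun q hq => ⟨(hP q (hJP hq)).1, (hP q (hJP hq)).2, fun h0 => hpJ (h0 ▸ hq)⟩)]
      have h5 : (z : ZMod p) = (u : ZMod p) * 1 ^ 2 * ∏ q ∈ J, (q : ZMod p) := by
        rw [hu]
        push_cast
        ring
      rw [h5] at h4
      exact (sq_mul_iff (husq p hpP) (hu0 p hpP) one_ne_zero).1 h4
    · intro p hp
      have hpP := hJP hp
      have hp1 := (hP p hpP).1
      have : Fact p.Prime := ⟨hp1⟩
      have h3 : z = p * ((∏ r ∈ J.erase p, (r : ℤ)) * u) := by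
        rw [hu, ← Finset.mul_prod_erase J (fun r : ℕ => (r : ℤ)) hp]
        ring
      have h4 := key p hpP _ h3
      have h5 : ∏ q ∈ P.erase p, (q : ZMod p) =
          (∏ q ∈ J.erase p, (q : ZMod p)) * ∏ q ∈ P \ J, (q : ZMod p) := by
        rw [← Finset.prod_union]
        · congr 1
          ext k
          simp only [Finset.mem_erase, Finset.mem_union, Finset.mem_sdiff]
          constructor
          · rintro ⟨h, h'⟩
            by_cases hk : k ∈ J
            · exact Or.inl ⟨h, hk⟩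
            · exact Or.inr ⟨h', hk⟩
          · rintro (⟨h, h'⟩ | ⟨h, h'⟩)
            · exact ⟨h, hJP h'⟩
            · exact ⟨fun h0 => h' (h0 ▸ hp), h⟩
        · rw [Finset.disjoint_left]
          intro k hk hk'
          exact (Finset.mem_sdiff.1 hk').2 (Finset.mem_of_mem_erase hk)
      have h6 : (((∏ r ∈ J.erase p, (r : ℤ)) * u : ℤ) : ZMod p) * ∏ q ∈ P.erase p, (q : ZMod p) =
          (u : ZMod p) * (∏ q ∈ J.erase p, (q : ZMod p)) ^ 2 * ∏ q ∈ P \ J, (q : ZMod p) := by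
        rw [h5]
        push_cast
        ring
      rw [h6, sq_mul_iff (husq p hpP) (hu0 p hpP) (hprod0 p hpP (J.erase p)
          ((Finset.erase_subset _ _).trans hJP) (Finset.notMem_erase p J)),
        sq_prod_iff hp1 (hP p hpP).2 (P \ J)
        (fun q hq => ⟨(hP q (Finset.mem_sdiff.1 hq).1).1, (hP q (Finset.mem_sdiff.1 hq).1).2,
          fun h0 => (Finset.mem_sdiff.1 hq).2 (h0 ▸ hp)⟩)] at h4
      by_cases hR : Rt p (pr S)
      · rw [(hx p).1 hR]
        have h7 : ¬ Even (∑ q ∈ P \ J, lres p q) := fun h0 => h4.1 h0 hR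
        rw [Int.even_add]
        simp [h7]
      · rw [(hx p).2 hR, add_zero]
        exact h4.2 hR
  rw [hJ] at hu
  rw [Finset.prod_empty, one_mul] at hu
  rw [hu]
  exact hun

end Pool.Agent.Y665.SELC
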